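import Pool.Agent.Y94.EQ.Cpl

/-!
# The minimiser is unique, and everything near the minimum is close to it
-/

open MeasureTheory Polynomial Pool.Agent.W401.SSS

namespace Pool.Agent.Results.MP_d35819_nt.Equidistribution

/-- There is exactly one arithmetic probability measure `μ` with compact support in `[0,∞)` whose
mean is the Schur-Siegel-Smyth constant. Moreover, for every continuous function `f` of at most
linear growth and every `ε > 0` there are a finite set `F` of irreducible integer polynomials and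
`δ > 0` such that the integral of `f` against `μ` is approximated within `ε` by its integral
against every probability measure with compact support in `[0,∞)` and mean at most
`lamSSS + δ` satisfying the conditions of arithmeticity for the members of `F` only, and by its
average over the conjugates of every totally positive algebraic integer whose mean trace is at
most `lamSSS + δ` and whose minimal polynomial is not in `F`. -/
theorem result :
    ∃ μ : Measure ℂ,
      (IsProbabilityMeasure μ ∧ CompactHalfLine μ ∧ ArithC μ ∧ ∫ z : ℂ, z ∂μ = (lamSSS : ℂ)) ∧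
      (∀ ν : Measure ℂ, IsProbabilityMeasure ν → CompactHalfLine ν → ArithC ν →
        ∫ z : ℂ, z ∂ν = (lamSSS : ℂ) → ν = μ) ∧
      ∀ (f : ℝ → ℝ) (C ε : ℝ), Continuous f → (∀ x, 0 ≤ x → |f x| ≤ C * (1 + x)) → 0 < ε →
        ∃ (F : Finset ℤ[X]) (δ : ℝ), 0 < δ ∧ (∀ Q ∈ F, Irreducible Q) ∧
          (∀ ν : Measure ℂ, IsProbabilityMeasure ν → CompactHalfLine ν →
            (∀ Q ∈ F, ν {z : ℂ | Polynomial.aeval z Q = 0} = 0 ∧
              Integrable (fun z : ℂ => Real.log ‖Polynomial.aeval z Q‖) ν ∧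
              0 ≤ ∫ z : ℂ, Real.log ‖Polynomial.aeval z Q‖ ∂ν) →
            (∫ z : ℂ, z ∂ν).re ≤ lamSSS + δ →
            |∫ z : ℂ, f z.re ∂ν - ∫ z : ℂ, f z.re ∂μ| ≤ ε) ∧
          ∀ p : ℤ[X], p.Monic → Irreducible p → TotPos p → p ∉ F → mtr p ≤ lamSSS + δ →
            |rsum p (fun z => f z.re) / p.natDegree - ∫ z : ℂ, f z.re ∂μ| ≤ ε := by
  obtain ⟨-, ⟨μ, h1, h2, h3⟩, -⟩ := facts
  have hp := h1.1
  refine ⟨μ.map (fun x : ℝ => (x : ℂ)), ⟨?_, compactHalfLine_map h1, arithC_map h2, ?_⟩, ?_, ?_⟩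
  · exact Measure.isProbabilityMeasure_map Complex.measurable_ofReal.aemeasurable
  · rw [integral_map_ofReal, h3]
  · intro ν g1 g2 g3 g4
    obtain ⟨B', g5⟩ := on_map_re g1 g2
    have g6 := arith_map_re g2 g3
    have g7 : mean (ν.map Complex.re) = lamSSS := by
      rw [Pool.Agent.Y94.EQ.mean_map_re g2, g4, Complex.ofReal_re]
    have e := unique_facts h1 h2 h3 g5 g6 g7
    rw [e, map_re_map g2]
  · intro f C ε hf hC hε
    obtain ⟨F, δ, k1, k2, k3, k4⟩ := Pool.Agent.Y94.EQ.uni_emp h1 h2 h3 hf hC hε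
    refine ⟨F, δ, k1, fun Q hQ => (k2 Q hQ).1, ?_, ?_⟩
    · intro ν g1 g2 g3 g4
      obtain ⟨B', g5⟩ := on_map_re g1 g2
      rw [Pool.Agent.Y94.EQ.integral_map_cast, ← Pool.Agent.Y94.EQ.integral_map_re ν hf]
      refine k3 B' _ g5 (fun Q hQ => Pool.Agent.Y94.EQ.logNonneg_map_re g2 (g3 Q hQ)) ?_
      rw [Pool.Agent.Y94.EQ.mean_map_re g2]
      exact g4
    · intro p p1 p2 p3 p4 p5
      rw [Pool.Agent.Y94.EQ.integral_map_cast]
      exact k4 p p1 p2 p3 p4 p5

end Pool.Agent.Results.MP_d35819_nt.Equidistribution
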